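import Mathlib
import Pool.Agent.X173.ALC
set_option autoImplicit false

/-!
MP_16b0c2_al: if `R` is a normal subgroup and `S` an arbitrary subgroup of a noncyclic free group
with `[R,R] ≤ [S,S]`, then `R ≤ S`.
-/

namespace Pool.Agent.Results.MP_16b0c2_al.CommutatorContainment

open FreeGroup Pool.Agent.X173.AL
open scoped commutatorElement

universe u

theorem nonabelian_of_free {F : Type u} [Group F] [IsFreeGroup F] (hF : ¬ IsCyclic F)
    (R : Subgroup F) [hR : R.Normal] {r : F} (hr : r ∈ R) (hr1 : r ≠ 1) :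
    ∃ a ∈ R, ∃ b ∈ R, a * b ≠ b * a := by
  let e : FreeGroup (IsFreeGroup.Generators F) ≃* F := IsFreeGroup.mulEquiv F
  obtain ⟨x, y, hxy⟩ : ∃ x y : IsFreeGroup.Generators F, x ≠ y := by
    by_contra hcon
    push Not at hcon
    have h1 := cyclic_of_subsingleton hcon
    exact hF (isCyclic_of_surjective e e.surjective)
  have : (R.comap e.toMonoidHom).Normal := hR.comap _
  have h1 : e.symm r ∈ R.comap e.toMonoidHom := by
    rw [Subgroup.mem_comap]
    simpa using hr
  have h2 : e.symm r ≠ 1 := by simpa using hr1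
  obtain ⟨a, ha, b, hb, hab⟩ := nonabelian hxy (R.comap e.toMonoidHom) h1 h2
  refine ⟨e a, ha, e b, hb, ?_⟩
  rw [← _root_.map_mul, ← _root_.map_mul]
  exact fun h => hab (e.injective h)

/-- **Affirmative answer.** -/
theorem result {F : Type u} [Group F] [IsFreeGroup F] (hF : ¬ IsCyclic F)
    (R S : Subgroup F) [R.Normal] (h : ⁅R, R⁆ ≤ ⁅S, S⁆) : R ≤ S := by
  by_cases hR1 : R = ⊥
  · rw [hR1]; exact bot_le
  have hR : R.Normal := inferInstance
  obtain ⟨⟨r, hr⟩, hr1'⟩ := Subgroup.ne_bot_iff_exists_ne_one.mp hR1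
  have hr1 : r ≠ 1 := fun h => hr1' (Subtype.ext h)
  obtain ⟨a, ha, b, hb, hab⟩ := nonabelian_of_free hF R hr hr1
  let G : Subgroup F := R ⊔ S
  let e : FreeGroup (IsFreeGroup.Generators G) ≃* G := IsFreeGroup.mulEquiv G
  let φ : FreeGroup (IsFreeGroup.Generators G) →* F := G.subtype.comp e.toMonoidHom
  have hφ : Function.Injective φ := by
    intro p q hpq
    exact e.injective (Subtype.ext hpq)
  have hrange : ∀ g ∈ G, ∃ p, φ p = g := by
    intro g hg
    refine ⟨e.symm ⟨g, hg⟩, ?_⟩
    simp [φ]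
  have hmapR : (R.comap φ).map φ = R := by
    rw [Subgroup.map_comap_eq, inf_eq_right]
    intro g hg
    exact hrange g (le_sup_left (a := R) (b := S) hg)
  have hmapS : (S.comap φ).map φ = S := by
    rw [Subgroup.map_comap_eq, inf_eq_right]
    intro g hg
    exact hrange g (le_sup_right (a := R) (b := S) hg)
  have : (R.comap φ).Normal := hR.comap _
  have hcore : R.comap φ ≤ S.comap φ := by
    apply core
    · intro g
      have hg : φ g ∈ R ⊔ S := (e g).2
      rw [Subgroup.mem_sup_of_normal_left] at hg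
      obtain ⟨y, hy, z, hz, hyz⟩ := hg
      obtain ⟨p, rfl⟩ := hrange y (le_sup_left (a := R) (b := S) hy)
      obtain ⟨q, rfl⟩ := hrange z (le_sup_right (a := R) (b := S) hz)
      exact ⟨p, hy, q, hz, hφ (by rw [_root_.map_mul, hyz])⟩
    · rw [← Subgroup.map_le_map_iff_of_injective hφ, Subgroup.map_commutator,
        Subgroup.map_commutator, hmapR, hmapS]
      exact h
    · obtain ⟨p, rfl⟩ := hrange a (le_sup_left (a := R) (b := S) ha)
      obtain ⟨q, rfl⟩ := hrange b (le_sup_left (a := R) (b := S) hb)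
      refine ⟨p, ha, q, hb, ?_⟩
      intro hpq
      apply hab
      rw [← _root_.map_mul, hpq, _root_.map_mul]
  intro g hg
  obtain ⟨p, rfl⟩ := hrange g (le_sup_left (a := R) (b := S) hg)
  exact hcore (show p ∈ R.comap φ from hg)

end Pool.Agent.Results.MP_16b0c2_al.CommutatorContainment
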